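import Mathlib

open Finset

namespace Pool.Agent.Results.MP_0a3b9a_nt.Fails

def bin (a : ℚ) (k : ℕ) : ℚ := (∏ i ∈ range k, (a - i)) / k.factorial

def Cg (p m : ℕ) (u v : ℚ) : Prop := (p : ℤ) ^ m ∣ (u - v).num

def Lg (r : ℚ) (p : ℕ) : ℤ := jacobiSym (r.num * r.den) p

def S1 (p : ℕ) : ℚ := ∑ k ∈ range p, bin (-1 / 3) k * bin (-1 / 6) k * (27 / 2) ^ k
def S2 (p : ℕ) : ℚ := ∑ k ∈ range p, bin (-2 / 3) k * bin (-5 / 6) k * (27 / 2) ^ k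

theorem result : ¬ ∀ p : ℕ, p.Prime → p ≠ 3 → (p % 8 = 1 ∨ p % 8 = 3) →
    ∀ c d : ℤ, (p : ℤ) = c ^ 2 + 2 * d ^ 2 → c % 4 = 1 →
      Cg p 2 (S1 p) ((if p % 3 = 1 then 1 else -25 / 2) * S2 p) ∧
      ((p % 24 = 1 ∨ p % 24 = 19) →
        Cg p 2 (S1 p) ((-1) ^ (p / 8) * Lg (-2 - c / d) p * (2 * c - p / (2 * c)))) ∧
      ((p % 24 = 11 ∨ p % 24 = 17) →
        Cg p 2 (S1 p) ((-1) ^ (p / 8) * Lg (2 + c / d) p * (10 * d - 5 * p / (4 * d)))) := by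
  intro h
  have h1 := (h 11 (by norm_num) (by norm_num) (by norm_num) (-3) 1 (by norm_num)
    (by norm_num)).2.2 (by norm_num)
  have hj : Lg (2 + ((-3 : ℤ) : ℚ) / ((1 : ℤ) : ℚ)) 11 = -1 := by
    have : (2 + ((-3 : ℤ) : ℚ) / ((1 : ℤ) : ℚ)) = -1 := by norm_num
    rw [this, Lg]
    norm_num
  rw [hj] at h1
  revert h1
  unfold Cg S1 bin
  decide +kernel

end Pool.Agent.Results.MP_0a3b9a_nt.Fails
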